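import Mathlib
import Pool.Agent.H.MP_f2fe1e_co.C

set_option autoImplicit false

namespace Pool.Agent.Results.MP_488b30_co.No

open Pool.Agent.H.MP_f2fe1e_co.A Pool.Agent.H.MP_f2fe1e_co.C

theorem result (k : ℕ) :
    ∃ (V : Type) (_ : Finite V) (G : SimpleGraph V), PCG G ∧ ¬ AndK k Gᶜ := by
  obtain ⟨r, h⟩ := andd k
  exact ⟨_, inferInstance, _, h⟩

end Pool.Agent.Results.MP_488b30_co.No
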